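import Pool.Agent.Y121.AHS.Defs
import Pool.Agent.E8helper24.INF.DrbDefs

/-!
# Galois actions for several primes on a cohomology theory with rational coefficients: definitions

In the intended use the base field is a number field `F`, with an embedding in the field of complex
numbers, the varieties are smooth and projective over `F`, `W` is the cohomology of `X(ℂ)` with
rational coefficients, `Γ` is the absolute Galois group of `F`, and for each prime number `ℓ` it
acts on `ℚ_ℓ ⊗ H(X(ℂ), ℚ)`, the `ℓ`-adic cohomology of `X`.
-/

open CategoryTheory AlgebraicGeometry

universe u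

namespace Pool.Agent.E8helper24.QF

open Pool.Agent.H914 Pool.Agent.H914.VarClass Pool.Agent.H914.VarClass.Obj
  Pool.Agent.H914.WeilCohomology Pool.Agent.Y121.AHS
open Pool.Agent.R920.MT (Property)
open Pool.Agent.Y133.Half (pw)
open Pool.Agent.E8helper24.INF.Drb (rankBy UniformIndex)

variable {k : Type u} [Field k] {𝒱 : VarClass k} {ops : CycleOps 𝒱}

/-- An action of the group `Γ` on the cohomology with coefficients extended to `L`: the elements act
as `L`-linear comparison isomorphisms (ring isomorphisms which preserve the degrees, commute with
pull-backs and respect the classes of algebraic cycles and the orientations up to the powers of a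
constant, the value of the cyclotomic character). -/
structure GalAction (Γ : Type) [Group Γ] (W : WeilCohomology.{u, 0} ops) (L : Type) [Field L]
    [Algebra W.K L] where
  /-- the action of an element of `Γ` -/
  act : Γ → Comparison W W L
  lin : ∀ g, (act g).s = RingEquiv.refl L
  mul : ∀ g h X x, (act (g * h)).e X x = (act g).e X ((act h).e X x)
  twist : ∀ g h, (act (g * h)).c = (act g).c * (act h).c

section One

variable {Γ : Type} [Group Γ] {W : WeilCohomology.{u, 0} ops} {L : Type} [Field L]
  [Algebra W.K L] (A : GalAction Γ W L)

/-- The Tate classes of degree `2 j`: the classes which are fixed by a subgroup of finite index of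
`Γ`, if the effect on the Tate twist is taken into account. -/
def IsTate (X : 𝒱.Obj) (j : ℕ) (x : HL W L X) : Prop :=
  IsDeg (2 * j) x ∧ ∃ Γ' : Subgroup Γ, Γ'.FiniteIndex ∧
    ∀ g ∈ Γ', (A.act g).e X x = twL (A.act g).c j x

/-- The dimension of the space spanned by the Tate classes of all degrees. -/
noncomputable def tateDim (X : 𝒱.Obj) : ℕ := Set.finrank L {x : HL W L X | ∃ j, IsTate A X j x}

end One

section Many

variable {ι : Type} {Γ : Type} [Group Γ] {W : WeilCohomology.{u, 0} ops} {L : ι → Type}
  [∀ i, Field (L i)] [∀ i, Algebra W.K (L i)] (A : ∀ i, GalAction Γ W (L i))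

/-- The common Tate classes of degree `2 j`: the rational classes which are Tate classes for
all `i`. -/
def IsCommon : Property W := fun X j c => ∀ i, IsTate (A i) X j (emL W (L i) c)

/-- All Tate classes for the index `i` on `X` are linear combinations, with coefficients in `L i`, of
common Tate classes. -/
def DefinedOverQ (i : ι) (X : 𝒱.Obj) : Prop := ∀ j x, IsTate (A i) X j x →
  x ∈ AddSubmonoid.closure {y | ∃ l c, IsCommon A X j c ∧ smL l (emL W (L i) c) = y}

/-- The rank of the intersection form on the common Tate classes on `X^n` divided by the dimension of
the space of all Tate classes for the index `i` tends to zero for `n → ∞`, and for each `r ≥ 1` it is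
at most `1 / r + C log (n + 2) / (n + 1)` for all varieties `X^(n+1) × Z × Z`. -/
def FewCommon (i : ι) (X : 𝒱.Obj) : Prop :=
  RatioToZero (fun n => rankBy (IsCommon A) (pw X n)) (fun n => tateDim (A i) (pw X n)) ∧
    UniformIndex X (rankBy (IsCommon A)) (tateDim (A i)) ⊤

end Many

end Pool.Agent.E8helper24.QF
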