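import Pool.Agent.E8helper24.QF.Desc
import Pool.Agent.E8helper24.QF.Defs
import Pool.Agent.Y121.AHS.Conv
import Pool.Agent.E8helper24.INF.DrbLaw

/-!
# The zero-one law for common Tate classes
-/

open CategoryTheory AlgebraicGeometry TensorProduct Filter Topology

open scoped ENNReal

universe u v

namespace Pool.Agent.E8helper24.QF

open Module
open Pool.Agent.H914 Pool.Agent.H914.VarClass Pool.Agent.H914.VarClass.Obj
  Pool.Agent.H914.WeilCohomology
open Pool.Agent.Y133.Half Pool.Agent.Y121.AH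

variable {k : Type u} [Field k] {𝒱 : VarClass k} {ops : CycleOps 𝒱}

/-- The rank of the intersection form does not change if the coefficients are extended. -/
lemma a_base {W : WeilCohomology.{u, v} ops} (S : Sys W) (L : Type v) [Field L] [Algebra W.K L]
    (Z : 𝒱.Obj) : (S.base L).a Z = S.a Z := by
  let a : S.C Z → (S.base L).C Z := fun c =>
    ⟨(1 : L) ⊗ₜ[W.K] (c : W.H Z), Submodule.tmul_mem_baseChange_of_mem (1 : L) c.2⟩
  have ha : Submodule.span (baseW W L).K (Set.range a) = ⊤ := by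
    rw [eq_top_iff]
    rintro ⟨x, hx⟩ _
    have hx' : x ∈ (S.C Z).baseChange L := hx
    have key : ∃ y : (S.base L).C Z, (y : (baseW W L).H Z) = x ∧
        y ∈ Submodule.span (baseW W L).K (Set.range a) := by
      refine base_induction (P := fun x : L ⊗[W.K] W.H Z => ∃ y : (S.base L).C Z,
        (y : (baseW W L).H Z) = x ∧ y ∈ Submodule.span (baseW W L).K (Set.range a)) ?_ ?_ ?_ hx'
      · exact ⟨0, rfl, Submodule.zero_mem _⟩
      · rintro x y ⟨x', h1, h2⟩ ⟨y', h3, h4⟩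
        exact ⟨x' + y', by rw [Submodule.coe_add, h1, h3]; rfl, Submodule.add_mem _ h2 h4⟩
      · intro l c hc
        refine ⟨(show (baseW W L).K from l) • a ⟨c, hc⟩, ?_,
          Submodule.smul_mem _ _ (Submodule.subset_span ⟨_, rfl⟩)⟩
        have h : l • ((1 : L) ⊗ₜ[W.K] c) = l ⊗ₜ[W.K] c := by
          rw [TensorProduct.smul_tmul', smul_eq_mul, mul_one]
        exact h
    obtain ⟨y, hy, hy'⟩ := key
    have h1 : y = ⟨x, hx⟩ := Subtype.ext hy
    rw [← h1]
    exact hy'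
  let hA : Algebra W.K (baseW W L).K := (inferInstance : Algebra W.K L)
  refine rk_bc (K := W.K) (L := (baseW W L).K) (β := S.F Z 1) (β' := (S.base L).F Z 1) a a ha ha ?_
  intro x y
  have h : formBase L (W.tr Z) (((1 : L) ⊗ₜ[W.K] (x : W.H Z)) * ((1 : L) ⊗ₜ[W.K] (y : W.H Z))) =
      algebraMap W.K L (W.tr Z ((x : W.H Z) * (y : W.H Z))) := by
    rw [Algebra.TensorProduct.tmul_mul_tmul, one_mul, formBase_tmul, one_mul]
  exact h

/-- **Growth or finite generation**, without a class of degree one. -/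
lemma growth_or' {V : WeilCohomology.{u, 0} ops} (S T : Sys V) (hST : ∀ X, S.C X ≤ T.C X)
    (X : 𝒱.Obj) :
    (∃ (m : ℕ) (P : 𝒱.Obj), Nonempty (P ≅ pw X m) ∧ GenBy S T X P) ∨
      ∀ N : ℕ, ∃ n₀ : ℕ, ∀ n ≥ n₀, N * S.a (pw X n) ≤ finrank V.K (T.C (pw X n)) := by
  by_cases h : ∃ l ∈ S.C X, V.tr X l ≠ 0
  · obtain ⟨l, hl, hl0⟩ := h
    refine growth_or S T hST X (l := (V.tr X l)⁻¹ • l) (Submodule.smul_mem _ _ hl) ?_
    rw [map_smul, smul_eq_mul, inv_mul_cancel₀ hl0]
  · right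
    push Not at h
    have h1 : ∀ n, ∀ x ∈ S.C (pw X n), V.tr (pw X n) x = 0 := by
      intro n x hx
      cases n with
      | zero => exact h x hx
      | succ n =>
        have h2 := V.tr_push (snd (pw X n) X) x 1
        rw [mul_one, map_one, mul_one] at h2
        have h3 : V.tr X (V.push (snd (pw X n) X) x) = V.tr ((pw X n).prod X) x := h2
        have h4 : V.tr ((pw X n).prod X) x = 0 := by
          rw [← h3]
          exact h _ (S.push _ hx)
        exact h4
    have h2 : ∀ n, S.a (pw X n) = 0 := by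
      intro n
      have h3 : S.F (pw X n) 1 = 0 := by
        apply LinearMap.ext
        intro x
        apply LinearMap.ext
        intro y
        exact h1 n _ (S.mul x.2 y.2)
      rw [Sys.a, h3, rk, LinearMap.range_zero, finrank_bot]
    intro N
    exact ⟨0, fun n _ => by rw [h2, mul_zero]; exact Nat.zero_le _⟩

lemma ratio_zero {a t : ℕ → ℕ} (h : ∀ N : ℕ, ∃ n₀ : ℕ, ∀ n ≥ n₀, N * a n ≤ t n) :
    Tendsto (fun n => (a n : ℝ) / t n) atTop (𝓝 0) := by
  rw [Metric.tendsto_atTop]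
  intro ε hε
  obtain ⟨N, hN⟩ := exists_nat_gt (1 / ε)
  obtain ⟨n₀, hn₀⟩ := h N
  refine ⟨n₀, fun n hn => ?_⟩
  have h1 := hn₀ n hn
  have h2 : (0 : ℝ) ≤ (a n : ℝ) / t n := by positivity
  rw [Real.dist_eq, sub_zero, abs_of_nonneg h2]
  rcases Nat.eq_zero_or_pos (t n) with h3 | h3
  · rw [h3, Nat.cast_zero, div_zero]; exact hε
  · have h4 : (0 : ℝ) < t n := by exact_mod_cast h3
    rw [div_lt_iff₀ h4]
    have h5 : (N : ℝ) * a n ≤ t n := by exact_mod_cast h1
    have h6 : 1 < ε * N := by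
      rw [div_lt_iff₀ hε] at hN
      linarith
    have h7 : (0 : ℝ) ≤ a n := Nat.cast_nonneg _
    rcases h7.eq_or_lt with h8 | h8
    · rw [← h8]; positivity
    · nlinarith [mul_lt_mul_of_pos_right h6 h8, mul_le_mul_of_nonneg_left h5 hε.le]

lemma index_top' {a t : ℕ → ℕ} (h : ∀ N : ℕ, ∃ n₀ : ℕ, ∀ n ≥ n₀, N * a n ≤ t n)
    (ht : ∀ n, 0 < t n) : Tendsto (fun n => (t n : ℝ≥0∞) / a n) atTop (𝓝 ⊤) := by
  rw [ENNReal.tendsto_nhds_top_iff_nat]
  intro N
  obtain ⟨n₀, hn₀⟩ := h (N + 1)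
  filter_upwards [eventually_ge_atTop n₀] with n hn
  rcases Nat.eq_zero_or_pos (a n) with h3 | h3
  · have h4 : ((t n : ℕ) : ℝ≥0∞) ≠ 0 := by exact_mod_cast (ht n).ne'
    rw [h3, Nat.cast_zero, ENNReal.div_zero h4]
    exact ENNReal.natCast_lt_top N
  have h1 := hn₀ n hn
  have h2 : (((N + 1 : ℕ) : ℝ≥0∞)) ≤ (t n : ℝ≥0∞) / a n := by
    rw [ENNReal.le_div_iff_mul_le (Or.inl (by exact_mod_cast h3.ne'))
      (Or.inl (ENNReal.natCast_ne_top _))]
    exact_mod_cast h1
  refine lt_of_lt_of_le ?_ h2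
  exact_mod_cast Nat.lt_succ_self N

section Main

open Pool.Agent.Y121.AHS (toC)

variable {Γ : Type} [Group Γ] {W : WeilCohomology.{u, 0} ops}

/-- The conversion of the actions. -/
noncomputable def toGA {L : Type} [Field L] [Algebra W.K L] (A : GalAction Γ W L) : GA Γ W L where
  C g := ⟨toC (A.act g), fun l => congrArg (fun f : L ≃+* L => f l) (A.lin g)⟩
  mul := A.mul
  twist := A.twist

lemma isTate_iff {L : Type} [Field L] [Algebra W.K L] {A : GalAction Γ W L} {X : 𝒱.Obj} {j : ℕ}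
    {x : (baseW W L).H X} : IsTate A X j x ↔ Tt (toGA A) X j x := Iff.rfl

variable {ι : Type} {L : ι → Type} [∀ i, Field (L i)] [∀ i, Algebra W.K (L i)]
  (A : ∀ i, GalAction Γ W (L i))

/-- **The zero-one law for the common Tate classes.** -/
theorem zero_one (hW : ∀ r : W.K, ∃ q : ℚ, (q : W.K) = r) (hemb : ∀ i, Nonempty (L i →+* ℂ))
    (i : ι) (X : 𝒱.Obj) [Nontrivial (W.H X)] :
    (∀ n, DefinedOverQ A i (pw X n)) ∨ FewCommon A i X := by
  obtain ⟨σ⟩ := hemb i
  let hC : Algebra W.K ℂ := (σ.comp (algebraMap W.K (L i))).toAlgebra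
  have hle := base_le (A := fun i => toGA (A i)) i i
  rcases growth_or' ((commonPred (fun i => toGA (A i)) i).sys.base (L i))
    (tatePred (toGA (A i))).sys hle X with ⟨m, P, hP, hgen⟩ | h
  · left
    intro n j x hx
    obtain ⟨N, l, f, hvf, hf⟩ := common_of_genBy (A := fun i => toGA (A i)) hW hemb ⟨m, hP⟩ hgen
      (n := n) (j := j) (v := x) hx
    have h1 : (∑ s, l s • em W (L i) (f s)) ∈ AddSubmonoid.closure
        {y : (baseW W (L i)).H (pw X n) | ∃ (l : (baseW W (L i)).K) (c : W.H (pw X n)),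
          IsCommon A (pw X n) j c ∧ l • em W (L i) c = y} :=
      AddSubmonoid.sum_mem _ fun s _ => AddSubmonoid.subset_closure ⟨l s, f s, hf s, rfl⟩
    rw [← hvf] at h1
    exact h1
  · right
    have hs : ∀ Z : 𝒱.Obj, INF.Drb.rankBy (IsCommon A) Z =
        ((commonPred (fun i => toGA (A i)) i).sys.base (L i)).a Z := fun Z => by
      rw [a_base]
      exact INF.Drb.rankBy_sys (commonPred (fun i => toGA (A i)) i) Z
    have ht : ∀ Z : 𝒱.Obj, tateDim (A i) Z =
        finrank (baseW W (L i)).K ((tatePred (toGA (A i))).sys.C Z) := fun Z => rfl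
    have h2 : ∀ N : ℕ, ∃ n₀ : ℕ, ∀ n ≥ n₀, N * INF.Drb.rankBy (IsCommon A) (pw X n) ≤
        tateDim (A i) (pw X n) := by
      intro N
      obtain ⟨n₀, h0⟩ := h N
      exact ⟨n₀, fun n hn => by rw [hs, ht]; exact h0 n hn⟩
    have hnt : Nontrivial ((baseW W (L i)).H X) := Pool.Agent.Y129.nontrivial_base (L i)
    have hpos : ∀ n, 0 < tateDim (A i) (pw X n) := fun n => by
      rw [ht]
      exact INF.finrank_C_pos (X := X) _ n
    exact ⟨ratio_zero h2, INF.Drb.uniformIndex_of hle hs ht le_top (index_top' h2 hpos)⟩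

end Main

end Pool.Agent.E8helper24.QF
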