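import Pool.Agent.E8helper24.QF.Orb
import Pool.Agent.Y121.AH.Span

/-!
# Descent of the coefficients
-/

open CategoryTheory AlgebraicGeometry TensorProduct

universe u

namespace Pool.Agent.E8helper24.QF

open Module
open Pool.Agent.H914 Pool.Agent.H914.VarClass Pool.Agent.H914.VarClass.Obj
  Pool.Agent.H914.WeilCohomology
open Pool.Agent.Y133.Half Pool.Agent.Y121.AH

variable {k : Type u} [Field k] {𝒱 : VarClass k} {ops : CycleOps 𝒱}

/-- The coefficients are the rational numbers. -/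
def Rat (W : WeilCohomology.{u, 0} ops) : Prop := ∀ r : W.K, ∃ q : ℚ, (q : W.K) = r

section Descent

variable {W : WeilCohomology.{u, 0} ops} [Algebra W.K ℂ] {L : Type} [Field L] [Algebra W.K L]
  {X : 𝒱.Obj}

/-- Ring homomorphisms are linear over the coefficients. -/
def ratA (hW : Rat W) (τ : L →+* ℂ) : L →ₐ[W.K] ℂ :=
  { τ with
    commutes' := fun r => by
      obtain ⟨q, rfl⟩ := hW r
      change τ (algebraMap W.K L (q : W.K)) = algebraMap W.K ℂ (q : W.K)
      rw [map_ratCast, map_ratCast, map_ratCast] }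

omit [Algebra W.K ℂ] in
/-- The images of a basis are linearly independent over the rational numbers. -/
lemma indep_basis {ι : Type*} (b : Basis ι W.K L) (τ : L →+* ℂ) :
    LinearIndependent ℚ fun i => τ (b i) := by
  rw [linearIndependent_iff']
  intro s g hg i hi
  have h1 : ∑ i ∈ s, ((g i : ℚ) : W.K) • b i = 0 := by
    apply τ.injective
    rw [map_zero, map_sum, ← hg]
    refine Finset.sum_congr rfl fun i _ => ?_
    rw [Algebra.smul_def, map_mul, map_ratCast, map_ratCast, Algebra.smul_def]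
    rfl
  have h2 := linearIndependent_iff'.1 b.linearIndependent s _ h1 i hi
  exact_mod_cast h2

/-- **Descent.** -/
lemma exists_desc (hW : Rat W) (σ : L →+* ℂ) (w : (baseW W L).H X) :
    ∃ (n : ℕ) (l : Fin n → (baseW W L).K) (f : Fin n → W.H X),
      w = ∑ i, l i • em W L (f i) ∧ ∀ N : Submodule (baseW W ℂ).K ((baseW W ℂ).H X),
        (∀ γ : ℂ ≃+* ℂ, psi W (ratA hW (γ.toRingHom.comp σ)) X w ∈ N) →
          ∀ i, em W ℂ (f i) ∈ N := by
  classical
  let b := Basis.ofVectorSpace W.K L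
  have hw0 : ∃ f : (Basis.ofVectorSpaceIndex W.K L) →₀ W.H X,
      (f.sum fun i m => b i ⊗ₜ[W.K] m) = (w : L ⊗[W.K] W.H X) :=
    TensorProduct.eq_repr_basis_left b w
  obtain ⟨f, hf⟩ := hw0
  have hf' : w = ∑ i ∈ f.support, (show (baseW W L).K from b i) • em W L (f i) := by
    rw [← hf, Finsupp.sum]
    exact Finset.sum_congr rfl fun i _ => tmul_eq (W := W) (b i) (f i)
  let e := f.support.equivFin
  refine ⟨f.support.card, fun i => (show (baseW W L).K from b (e.symm i)), fun i => f (e.symm i),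
    ?_, fun N hN => ?_⟩
  · rw [hf', ← Finset.sum_coe_sort]
    exact (Equiv.sum_comp e.symm (fun i : f.support =>
      (show (baseW W L).K from b i) • em W L (f i))).symm
  have key : ∀ i ∈ f.support, em W ℂ (f i) ∈ N := by
    intro i hi
    by_contra hc
    obtain ⟨φ, hφ, hφp⟩ := Submodule.exists_dual_map_eq_bot_of_notMem hc inferInstance
    apply hφ
    refine aut_indep (indep_basis b σ) _ f.support rfl (fun i => φ (em W ℂ (f i))) ?_ i hi
    intro g
    have h1 : φ (psi W (ratA hW (g.toRingHom.comp σ)) X w) = 0 := by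
      have h2 := Submodule.mem_map_of_mem (f := φ) (hN g)
      rw [hφp, Submodule.mem_bot] at h2
      exact h2
    rw [hf', map_sum, map_sum] at h1
    refine Eq.trans (Finset.sum_congr rfl fun i _ => ?_) h1
    have h3 : φ (psi W (ratA hW (g.toRingHom.comp σ)) X
        ((show (baseW W L).K from b i) • em W L (f i))) =
        kap W (ratA hW (g.toRingHom.comp σ)) (show (baseW W L).K from b i) *
          φ (em W ℂ (f i)) := by
      rw [psi_smul, psi_em, map_smul, smul_eq_mul]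
    refine Eq.trans ?_ h3.symm
    exact mul_comm (φ (em W ℂ (f i)) : ℂ) (g (σ (b i)))
  intro i
  exact key _ (e.symm i).2

end Descent

variable {Γ : Type} [Group Γ] {W : WeilCohomology.{u, 0} ops} {ι : Type} {L : ι → Type}
  [∀ i, Field (L i)] [∀ i, Algebra W.K (L i)] {A : ∀ i, GA Γ W (L i)} {X P Z : 𝒱.Obj}
  [Algebra W.K ℂ]

/-- Realised extended common classes are fixed by the normalised operators. -/
lemma gnop_fix {i₀ i : ι} (σ : L i₀ →ₐ[W.K] ℂ) (τ : L i →ₐ[W.K] ℂ) {Γ₀ : Subgroup Γ}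
    (h : FixAll (A i) X Γ₀) {r : ℕ} (hZ : Nonempty (Z ≅ pw X r)) {g : Γ} (hg : g ∈ Γ₀)
    {x : (baseW W (L i₀)).H Z} (hx : x ∈ ((commonPred A i₀).sys.base (L i₀)).C Z) :
    (gnop (A i) τ g).g Z (psi W σ Z x) = psi W σ Z x := by
  have hx' : x ∈ ((commonPred A i₀).sp Z).baseChange (L i₀) := hx
  refine base_induction (P := fun x : (L i₀) ⊗[W.K] W.H Z => (gnop (A i) τ g).g Z
    (psi W σ Z (show (baseW W (L i₀)).H Z from x)) =
      psi W σ Z (show (baseW W (L i₀)).H Z from x)) ?_ ?_ ?_ hx'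
  · have h1 : psi W σ Z (show (baseW W (L i₀)).H Z from (0 : (L i₀) ⊗[W.K] W.H Z)) = 0 :=
      map_zero (psi W σ Z)
    rw [h1, map_zero]
  · intro x y hx hy
    have h1 : psi W σ Z (show (baseW W (L i₀)).H Z from (x + y)) =
        psi W σ Z (show (baseW W (L i₀)).H Z from x) +
          psi W σ Z (show (baseW W (L i₀)).H Z from y) := map_add (psi W σ Z) _ _
    rw [h1, map_add, hx, hy]
  · intro l a ha
    rw [tmul_eq, psi_smul, psi_em, map_smul]
    congr 1
    refine ClassPred.sp_ind (Q := commonPred A i₀)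
      (q := fun a => (gnop (A i) τ g).g Z (em W ℂ a) = em W ℂ a) ?_ ?_ ?_ ha
    · intro j a ha
      exact gnop_em τ g (h Z r hZ j _ (ha i) g hg) (mem_of_em_mem (ha i).1)
    · rw [em_zero, map_zero]
    · intro a b ha hb
      rw [em_add, map_add, ha, hb]

omit [Algebra W.K ℂ] in
lemma xpw_mem' (S : Sys W) {v : W.H Z} (hv : v ∈ S.C Z) : ∀ m, xpw W v m ∈ S.C (pw Z m)
  | 0 => hv
  | m + 1 => by
    have h := Sys.xp_mem_C S (xpw_mem' S hv m) hv
    exact h

/-- The realised Tate classes are Tate classes for all indices. -/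
lemma psi_mem_CT {i₀ : ι} (hP : ∃ m, Nonempty (P ≅ pw X m))
    (hgen : GenBy ((commonPred A i₀).sys.base (L i₀)) (tatePred (A i₀)).sys X P) {n j : ℕ}
    {v : (baseW W (L i₀)).H (pw X n)} (hv : Tt (A i₀) (pw X n) j v) (σ : L i₀ →ₐ[W.K] ℂ) (i : ι)
    (τ : L i →ₐ[W.K] ℂ) : psi W σ (pw X n) v ∈ CT (A i) τ (pw X n) j := by
  obtain ⟨m, ⟨θ⟩⟩ := hP
  obtain ⟨Γ₀, h0, hΓ⟩ := exists_fixAll (A i) X
  have hinf : Infinite (baseW W ℂ).K := (inferInstance : Infinite ℂ)
  have h1 := finite_orbit (psiRlz σ) (S := (commonPred A i₀).sys.base (L i₀))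
    (T := (tatePred (A i₀)).sys) (G := Γ₀) (P := P) (Z := pw X n)
    (fun a => gnop (A i) τ (a : Γ)) (j := j) (v := v) hv.1 ?_ ?_ ?_
  · refine mem_CT_of_finite τ h0 (h1.subset ?_)
    rintro _ ⟨a, rfl⟩
    exact ⟨a, gnop_even (A i) τ (a : Γ) (psi_gr σ hv.1)⟩
  · intro a m' x hx
    obtain ⟨r, ⟨θ'⟩⟩ := pw_pw X n m'
    exact gnop_fix σ τ hΓ (r := m + r + 1) ⟨prodCongr θ θ' ≪≫ pwAdd X m r⟩ a.2 hx
  · intro m'
    obtain ⟨r, hr⟩ := pw_pw X n m'
    exact hgen r _ hr (xpw_mem' _ (ClassPred.sp_of (Q := tatePred (A i₀)) hv) m')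
  · intro a hne
    exact gnop_ne τ (a : Γ) (psi_gr σ hv.1) hne

/-- **The Tate classes are combinations of common Tate classes.** -/
theorem common_of_genBy (hW : Rat W) (hemb : ∀ i, Nonempty (L i →+* ℂ)) {i₀ : ι}
    (hP : ∃ m, Nonempty (P ≅ pw X m))
    (hgen : GenBy ((commonPred A i₀).sys.base (L i₀)) (tatePred (A i₀)).sys X P) {n j : ℕ}
    {v : (baseW W (L i₀)).H (pw X n)} (hv : Tt (A i₀) (pw X n) j v) :
    ∃ (N : ℕ) (l : Fin N → (baseW W (L i₀)).K) (f : Fin N → W.H (pw X n)),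
      v = ∑ i, l i • em W (L i₀) (f i) ∧ ∀ i, Cm A (pw X n) j (f i) := by
  obtain ⟨σ⟩ := hemb i₀
  obtain ⟨N, l, f, hvf, hN⟩ := exists_desc hW σ v
  refine ⟨N, l, f, hvf, fun s i => ?_⟩
  obtain ⟨τ'⟩ := hemb i
  let τ : L i →ₐ[W.K] ℂ := ratA hW τ'
  have h1 := hN (CT (A i) τ (pw X n) j ⊓ (baseW W ℂ).gr (pw X n) (2 * j))
    (fun γ => ⟨psi_mem_CT hP hgen hv _ i τ, psi_gr _ hv.1⟩) s
  obtain ⟨⟨Γ', hΓ', h2⟩, h3⟩ := h1
  refine ⟨em_gr (mem_of_em_mem h3), Γ', hΓ', fun g hg => ?_⟩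
  apply psi_injective τ
  rw [psi_smul, psi_em, map_pow, ← h2 g hg, cop_em]

end Pool.Agent.E8helper24.QF
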