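import Pool.Agent.E8helper24.QF.SOp

/-!
# Extension of linear comparison isomorphisms to complex coefficients
-/

open CategoryTheory AlgebraicGeometry TensorProduct

universe u

namespace Pool.Agent.E8helper24.QF

open Module
open Pool.Agent.H914 Pool.Agent.H914.VarClass Pool.Agent.H914.VarClass.Obj
  Pool.Agent.H914.WeilCohomology
open Pool.Agent.Y133.Half Pool.Agent.Y121.AH

variable {k : Type u} [Field k] {𝒱 : VarClass k} {ops : CycleOps 𝒱}
  {W : WeilCohomology.{u, 0} ops} [Algebra W.K ℂ] {L : Type} [Field L] [Algebra W.K L]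
  (τ : L →ₐ[W.K] ℂ) {X Y : 𝒱.Obj}

lemma psi_injective : Function.Injective (psi W τ X) := by
  have h : Function.Injective (LinearMap.rTensor (W.H X) τ.toLinearMap) :=
    Module.Flat.rTensor_preserves_injective_linearMap _ τ.toRingHom.injective
  intro x y hxy
  apply h
  have e : ∀ x : (baseW W L).H X, LinearMap.rTensor (W.H X) τ.toLinearMap
      (show L ⊗[W.K] W.H X from x) = (show ℂ ⊗[W.K] W.H X from psi W τ X x) := by
    intro x
    refine tmul_ind (p := fun x => LinearMap.rTensor (W.H X) τ.toLinearMap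
      (show L ⊗[W.K] W.H X from x) = (show ℂ ⊗[W.K] W.H X from psi W τ X x)) ?_ ?_ ?_ x
    · exact (map_zero (LinearMap.rTensor (W.H X) τ.toLinearMap)).trans
        (map_zero (psi W τ X)).symm
    · intro x y hx hy
      have h1 := map_add (LinearMap.rTensor (W.H X) τ.toLinearMap)
        (show L ⊗[W.K] W.H X from x) (show L ⊗[W.K] W.H X from y)
      have h2 := map_add (psi W τ X) x y
      refine h1.trans ?_
      rw [hx, hy]
      exact h2.symm
    · intro l a
      exact (psi_tmul τ l a).symm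
  exact (e x).trans ((congrArg (fun z : (baseW W ℂ).H X => (show ℂ ⊗[W.K] W.H X from z)) hxy).trans
    (e y).symm)

/-- A comparison isomorphism of the cohomology with itself which is linear. -/
structure LinC (W : WeilCohomology.{u, 0} ops) (L : Type) [Field L] [Algebra W.K L] where
  /-- the comparison isomorphism -/
  C : Comparison (baseW W L) (baseW W L)
  lin : ∀ l, C.s l = l

variable {τ} (C : LinC W L)

omit [Algebra W.K ℂ] in
lemma LinC.semi (X : 𝒱.Obj) (l : (baseW W L).K) (x : (baseW W L).H X) :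
    C.C.e X (l • x) = l • C.C.e X x := by
  rw [C.C.semi, C.lin]

variable (τ)

/-- The extension on the rational classes. -/
noncomputable def ophi (X : 𝒱.Obj) : W.H X →ₗ[W.K] ℂ ⊗[W.K] W.H X where
  toFun a := psi W τ X (C.C.e X (em W L a))
  map_add' a b := by
    rw [em_add, map_add, map_add]
    rfl
  map_smul' r a := by
    rw [em_smul, C.semi, psi_smul]
    have h : kap W τ (ex W L r) = algebraMap W.K ℂ r := τ.commutes r
    rw [h]
    exact algebraMap_smul ℂ r (show ℂ ⊗[W.K] W.H X from psi W τ X (C.C.e X (em W L a)))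

/-- The extension of the isomorphism to complex coefficients. -/
noncomputable def cop (X : 𝒱.Obj) : (baseW W ℂ).H X →ₗ[(baseW W ℂ).K] (baseW W ℂ).H X :=
  ((ophi τ C X).liftBaseChange ℂ : ℂ ⊗[W.K] W.H X →ₗ[ℂ] ℂ ⊗[W.K] W.H X)

variable {τ C}

lemma cop_em (a : W.H X) : cop τ C X (em W ℂ a) = psi W τ X (C.C.e X (em W L a)) := by
  have h : (ophi τ C X).liftBaseChange ℂ ((1 : ℂ) ⊗ₜ[W.K] a) = (1 : ℂ) • ophi τ C X a :=
    LinearMap.liftBaseChange_tmul _ _ _ _
  rw [one_smul] at h
  exact h

lemma base_ind {p : (baseW W ℂ).H X → Prop} (h0 : p 0) (hadd : ∀ x y, p x → p y → p (x + y))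
    (h : ∀ (l : (baseW W ℂ).K) (a : W.H X), p (l • em W ℂ a)) (x : (baseW W ℂ).H X) : p x :=
  tmul_ind h0 hadd (fun l a => by rw [tmul_eq]; exact h l a) x

omit [Algebra W.K ℂ] in
lemma base_indL {p : (baseW W L).H X → Prop} (h0 : p 0) (hadd : ∀ x y, p x → p y → p (x + y))
    (h : ∀ (l : (baseW W L).K) (a : W.H X), p (l • em W L a)) (x : (baseW W L).H X) : p x :=
  tmul_ind h0 hadd (fun l a => by rw [tmul_eq]; exact h l a) x

lemma cop_psi (x : (baseW W L).H X) : cop τ C X (psi W τ X x) = psi W τ X (C.C.e X x) := by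
  refine base_indL (p := fun x => cop τ C X (psi W τ X x) = psi W τ X (C.C.e X x)) ?_ ?_ ?_ x
  · simp only [map_zero]
  · intro x y hx hy; simp only [map_add, hx, hy]
  · intro l a
    rw [psi_smul, psi_em, map_smul, cop_em, C.semi, psi_smul]

lemma cop_mul (x y : (baseW W ℂ).H X) : cop τ C X (x * y) = cop τ C X x * cop τ C X y := by
  refine base_ind (p := fun x => cop τ C X (x * y) = cop τ C X x * cop τ C X y) ?_ ?_ ?_ x
  · rw [zero_mul, map_zero, zero_mul]
  · intro x z hx hz; rw [add_mul, map_add, hx, hz, map_add, add_mul]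
  · intro l a
    refine base_ind (p := fun y => cop τ C X (l • em W ℂ a * y) =
      cop τ C X (l • em W ℂ a) * cop τ C X y) ?_ ?_ ?_ y
    · rw [mul_zero, map_zero, mul_zero]
    · intro y z hy hz; rw [mul_add, map_add, hy, hz, map_add, mul_add]
    · intro m b
      rw [smul_mul_smul_comm, ← em_mul, map_smul, map_smul, map_smul, cop_em, cop_em, cop_em,
        em_mul, map_mul, map_mul, smul_mul_smul_comm]

lemma cop_map (f : X ⟶ Y) (y : (baseW W ℂ).H Y) :
    cop τ C X ((baseW W ℂ).map f y) = (baseW W ℂ).map f (cop τ C Y y) := by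
  refine base_ind (p := fun y => cop τ C X ((baseW W ℂ).map f y) =
    (baseW W ℂ).map f (cop τ C Y y)) ?_ ?_ ?_ y
  · simp only [map_zero]
  · intro y z hy hz; simp only [map_add, hy, hz]
  · intro l a
    rw [map_smul, em_map, map_smul, cop_em, map_smul, cop_em, map_smul, ← em_map, C.C.nat, psi_map]

lemma cop_gr {i : ℕ} {x : (baseW W ℂ).H X} (hx : x ∈ (baseW W ℂ).gr X i) :
    cop τ C X x ∈ (baseW W ℂ).gr X i := by
  have hx' : x ∈ (W.gr X i).baseChange ℂ := hx
  refine base_induction (P := fun x : ℂ ⊗[W.K] W.H X => cop τ C X x ∈ (baseW W ℂ).gr X i)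
    ?_ ?_ ?_ hx'
  · exact (map_zero (cop τ C X)).symm ▸ Submodule.zero_mem _
  · intro x y hx hy
    exact (map_add (cop τ C X) x y).symm ▸ Submodule.add_mem _ hx hy
  · intro l a ha
    have h : cop τ C X (show (baseW W ℂ).H X from (l ⊗ₜ[W.K] a)) ∈ (baseW W ℂ).gr X i := by
      rw [tmul_eq, map_smul, cop_em]
      exact Submodule.smul_mem _ _ (psi_gr _ (C.C.gr.2 (em_gr ha)))
    exact h

lemma cop_push (f : X ⟶ Y) (x : (baseW W ℂ).H X) :
    kap W τ C.C.c ^ X.dim • cop τ C Y ((baseW W ℂ).push f x) =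
      kap W τ C.C.c ^ Y.dim • (baseW W ℂ).push f (cop τ C X x) := by
  refine base_ind (p := fun x => kap W τ C.C.c ^ X.dim • cop τ C Y ((baseW W ℂ).push f x) =
      kap W τ C.C.c ^ Y.dim • (baseW W ℂ).push f (cop τ C X x)) ?_ ?_ ?_ x
  · simp only [map_zero, smul_zero]
  · intro y z hy hz; simp only [map_add, smul_add, hy, hz]
  · intro l a
    have h := congrArg (psi W τ Y) (C.C.push f (em W L a))
    rw [psi_smul, psi_smul, psi_push, em_push, map_pow, map_pow] at h
    rw [map_smul, em_push, map_smul, cop_em, smul_comm, h, map_smul, map_smul, cop_em,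
      smul_comm l]

end Pool.Agent.E8helper24.QF
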