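import Pool.Agent.E8helper24.QF.Ext

/-!
# The normalised operators
-/

open CategoryTheory AlgebraicGeometry TensorProduct

universe u

namespace Pool.Agent.E8helper24.QF

open Module
open Pool.Agent.H914 Pool.Agent.H914.VarClass Pool.Agent.H914.VarClass.Obj
  Pool.Agent.H914.WeilCohomology
open Pool.Agent.Y133.Half Pool.Agent.Y121.AH

variable {k : Type u} [Field k] {𝒱 : VarClass k} {ops : CycleOps 𝒱}

section Scal

variable (V : WeilCohomology.{u, 0} ops) (s : V.K) {X Y : 𝒱.Obj}

/-- The multiplication by `s ^ i` in degree `i`. -/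
noncomputable def scal (X : 𝒱.Obj) : Module.End V.K (V.H X) := dia (V.isInternal X) fun i => s ^ i

variable {V s}

lemma scal_gr {i : ℕ} {x : V.H X} (hx : x ∈ V.gr X i) : scal V s X x = s ^ i • x :=
  dia_apply (V.isInternal X) _ hx

lemma scal_mul (x y : V.H X) : scal V s X (x * y) = scal V s X x * scal V s X y := by
  refine gr_induction (V.isInternal X)
    (p := fun x => scal V s X (x * y) = scal V s X x * scal V s X y) ?_ ?_ x
  · intro i x hx
    refine gr_induction (V.isInternal X)
      (p := fun y => scal V s X (x * y) = scal V s X x * scal V s X y) ?_ ?_ y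
    · intro j y hy
      rw [scal_gr hx, scal_gr hy, scal_gr (V.mul_mem hx hy), smul_mul_smul_comm, pow_add]
    · intro a b ha hb; rw [mul_add, map_add, ha, hb, map_add, mul_add]
  · intro a b ha hb; rw [add_mul, map_add, ha, hb, map_add, add_mul]

lemma scal_map (f : X ⟶ Y) (y : V.H Y) :
    scal V s X (V.map f y) = V.map f (scal V s Y y) := by
  refine gr_induction (V.isInternal Y)
    (p := fun y => scal V s X (V.map f y) = V.map f (scal V s Y y)) ?_ ?_ y
  · intro i y hy
    rw [scal_gr hy, scal_gr (V.map_mem f hy), map_smul]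
  · intro a b ha hb; simp only [map_add, ha, hb]

end Scal

variable {W : WeilCohomology.{u, 0} ops} [Algebra W.K ℂ] {L : Type} [Field L] [Algebra W.K L]
  (τ : L →ₐ[W.K] ℂ) (C : LinC W L) (s : (baseW W ℂ).K)

/-- The extension of the isomorphism to complex coefficients, corrected by the effect on the Tate
twist; `s` is a square root of the constant. -/
noncomputable def nop (hs : s ^ 2 = kap W τ C.C.c) : SOp (baseW W ℂ) where
  g X := cop τ C X ∘ₗ scal (baseW W ℂ) s⁻¹ X
  mul X x y := by
    rw [LinearMap.comp_apply, scal_mul, cop_mul]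
    rfl
  map f y := by
    rw [LinearMap.comp_apply, scal_map, cop_map]
    rfl
  push {X Y} f x := by
    have hc : kap W τ C.C.c ≠ 0 := fun h => C.C.ne ((map_eq_zero (kap W τ)).1 h)
    have hs0 : s ≠ 0 := by
      rintro rfl
      rw [zero_pow two_ne_zero] at hs
      exact hc hs.symm
    rw [LinearMap.comp_apply, LinearMap.comp_apply]
    refine gr_induction ((baseW W ℂ).isInternal X)
      (p := fun x => cop τ C Y (scal (baseW W ℂ) s⁻¹ Y ((baseW W ℂ).push f x)) =
        (baseW W ℂ).push f (cop τ C X (scal (baseW W ℂ) s⁻¹ X x))) ?_ ?_ x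
    · intro i x hx
      have h1 := cop_push (τ := τ) (C := C) f x
      have h5 := (baseW W ℂ).push_mem f hx
      rw [scal_gr hx, map_smul, map_smul]
      by_cases hneg : (i : ℤ) + 2 * ((Y.dim : ℤ) - X.dim) < 0
      · rw [grZ_of_neg hneg] at h5
        have h6 := (Submodule.mem_bot _).1 h5
        rw [h6, map_zero, smul_zero] at h1
        have h7 := (smul_eq_zero.1 h1.symm).resolve_left (pow_ne_zero _ hc)
        rw [h6, h7, map_zero, map_zero, smul_zero]
      · obtain ⟨l, hl⟩ := Int.eq_ofNat_of_zero_le (not_lt.1 hneg)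
        rw [hl, grZ_natCast] at h5
        rw [scal_gr h5, map_smul]
        have hl' : l + 2 * X.dim = i + 2 * Y.dim := by omega
        rw [← hs, ← pow_mul, ← pow_mul] at h1
        apply smul_right_injective _ (pow_ne_zero (i + (l + 2 * X.dim)) hs0)
        change s ^ (i + (l + 2 * X.dim)) • s⁻¹ ^ l • cop τ C Y ((baseW W ℂ).push f x) =
          s ^ (i + (l + 2 * X.dim)) • s⁻¹ ^ i • (baseW W ℂ).push f (cop τ C X x)
        rw [smul_smul, smul_smul]
        have e1 : s ^ (i + (l + 2 * X.dim)) * s⁻¹ ^ l = s ^ i * s ^ (2 * X.dim) := by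
          rw [pow_add, pow_add, inv_pow]
          field_simp
        have e2 : s ^ (i + (l + 2 * X.dim)) * s⁻¹ ^ i = s ^ i * s ^ (2 * Y.dim) := by
          rw [hl', pow_add, pow_add, inv_pow]
          field_simp
        rw [e1, e2, ← smul_smul, ← smul_smul, h1]
    · intro a b ha hb; simp only [map_add, ha, hb]
  gr {X i x} hx := by
    rw [LinearMap.comp_apply, scal_gr hx, map_smul]
    exact Submodule.smul_mem _ _ (cop_gr hx)

variable {τ C s}

lemma nop_even (hs : s ^ 2 = kap W τ C.C.c) {X : 𝒱.Obj} {j : ℕ} {x : (baseW W ℂ).H X}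
    (hx : x ∈ (baseW W ℂ).gr X (2 * j)) :
    (nop τ C s hs).g X x = (kap W τ C.C.c ^ j)⁻¹ • cop τ C X x := by
  change cop τ C X (scal (baseW W ℂ) s⁻¹ X x) = _
  rw [scal_gr hx, map_smul, ← hs, inv_pow, pow_mul]

/-- A square root of the constant. -/
lemma exists_root (τ : L →ₐ[W.K] ℂ) (C : LinC W L) :
    ∃ s : (baseW W ℂ).K, s ^ 2 = kap W τ C.C.c := by
  have h : IsAlgClosed ℂ := inferInstance
  obtain ⟨s, hs⟩ := h.exists_pow_nat_eq (τ C.C.c) (n := 2) (by norm_num)
  exact ⟨s, hs⟩

end Pool.Agent.E8helper24.QF
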