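import Pool.Agent.E8helper24.QF.Pred

/-!
# Finite orbits
-/

open CategoryTheory AlgebraicGeometry TensorProduct

universe u

namespace Pool.Agent.E8helper24.QF

open Module
open Pool.Agent.H914 Pool.Agent.H914.VarClass Pool.Agent.H914.VarClass.Obj
  Pool.Agent.H914.WeilCohomology
open Pool.Agent.Y133.Half Pool.Agent.Y121.AH

variable {k : Type u} [Field k] {𝒱 : VarClass k} {ops : CycleOps 𝒱}

/-- The change of the coefficients as a realisation. -/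
noncomputable def psiRlz {W : WeilCohomology.{u, 0} ops} [Algebra W.K ℂ] {L : Type} [Field L]
    [Algebra W.K L] (σ : L →ₐ[W.K] ℂ) : Rlz (baseW W L) (baseW W ℂ) where
  s := kap W σ
  c := 1
  ne := one_ne_zero
  E := psi W σ
  semi X r a := psi_smul σ r a
  gr ha := psi_gr σ ha
  nat f b := psi_map σ f b
  push f a := by rw [one_pow, one_pow, one_smul, one_smul, psi_push]

section One

variable {Γ : Type} [Group Γ] {W : WeilCohomology.{u, 0} ops} {L : Type} [Field L]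
  [Algebra W.K L] (A : GA Γ W L) {X Y Z P : 𝒱.Obj}

/-- The family of operators. -/
noncomputable def fam : Fam Γ (baseW W L) where
  e g X :=
    { toFun := (A.C g).C.e X
      map_add' := fun a b => map_add _ a b
      map_smul' := fun r a => (A.C g).semi X r a }
  c g := (A.C g).C.c
  mul g X x y := map_mul ((A.C g).C.e X) x y
  map g _ _ f y := (A.C g).C.nat f y

/-- The subgroup fixes all Tate classes on the powers of `X`. -/
def FixAll (X : 𝒱.Obj) (Γ₀ : Subgroup Γ) : Prop :=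
  ∀ (Z : 𝒱.Obj) (r : ℕ), Nonempty (Z ≅ pw X r) → ∀ (j : ℕ) (x : (baseW W L).H Z), Tt A Z j x →
    ∀ g ∈ Γ₀, (A.C g).C.e Z x = (A.C g).C.c ^ j • x

lemma exists_fixAll (X : 𝒱.Obj) : ∃ Γ₀ : Subgroup Γ, Γ₀.FiniteIndex ∧ FixAll A X Γ₀ := by
  obtain ⟨Γ₀, h0, h⟩ := exists_subgroup (fam A) X
  refine ⟨Γ₀, h0, ?_⟩
  rintro Z r ⟨θ⟩ j x hx g hg
  obtain ⟨-, Γ', hΓ', h1⟩ := (tatePred A).map θ.inv hx
  have h2 := h Γ' hΓ' r j ((baseW W L).map θ.inv x) h1 g hg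
  have h3 : (A.C g).C.e (pw X r) ((baseW W L).map θ.inv x) =
      (A.C g).C.c ^ j • (baseW W L).map θ.inv x := h2
  have h4 := congrArg ((baseW W L).map θ.hom) h3
  rw [map_smul, ← (A.C g).C.nat, ← (baseW W L).map_comp, θ.hom_inv_id, (baseW W L).map_id] at h4
  exact h4

variable [Algebra W.K ℂ]

/-- The normalised operator of an element. -/
noncomputable def gnop (τ : L →ₐ[W.K] ℂ) (g : Γ) : SOp (baseW W ℂ) :=
  nop τ (A.C g) (exists_root τ (A.C g)).choose (exists_root τ (A.C g)).choose_spec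

lemma gnop_even (τ : L →ₐ[W.K] ℂ) (g : Γ) {X : 𝒱.Obj} {j : ℕ} {x : (baseW W ℂ).H X}
    (hx : x ∈ (baseW W ℂ).gr X (2 * j)) :
    (gnop A τ g).g X x = (kap W τ (A.C g).C.c ^ j)⁻¹ • cop τ (A.C g) X x :=
  nop_even _ hx

lemma kap_ne (τ : L →ₐ[W.K] ℂ) (g : Γ) : kap W τ (A.C g).C.c ≠ 0 := fun h =>
  (A.C g).C.ne ((map_eq_zero (kap W τ)).1 h)

variable {A}

/-- Fixed classes. -/
lemma gnop_em (τ : L →ₐ[W.K] ℂ) (g : Γ) {j : ℕ} {x : W.H X}
    (h : (A.C g).C.e X (em W L x) = (A.C g).C.c ^ j • em W L x) (hx : x ∈ W.gr X (2 * j)) :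
    (gnop A τ g).g X (em W ℂ x) = em W ℂ x := by
  rw [gnop_even A τ g (em_gr hx), cop_em, h, psi_smul, psi_em, map_pow, smul_smul,
    inv_mul_cancel₀ (pow_ne_zero _ (kap_ne A τ g)), one_smul]

lemma cop_mulG (τ : L →ₐ[W.K] ℂ) (g h : Γ) (x : (baseW W ℂ).H X) :
    cop τ (A.C (g * h)) X x = cop τ (A.C g) X (cop τ (A.C h) X x) := by
  refine base_ind (p := fun x => cop τ (A.C (g * h)) X x =
    cop τ (A.C g) X (cop τ (A.C h) X x)) ?_ ?_ ?_ x
  · simp only [map_zero]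
  · intro x y hx hy; simp only [map_add, hx, hy]
  · intro l a
    rw [map_smul, map_smul, map_smul, cop_em, cop_em, cop_psi, A.mul]

lemma cop_one (τ : L →ₐ[W.K] ℂ) (x : (baseW W ℂ).H X) : cop τ (A.C 1) X x = x := by
  refine base_ind (p := fun x => cop τ (A.C 1) X x = x) (map_zero _) ?_ ?_ x
  · intro x y hx hy; rw [map_add, hx, hy]
  · intro l a
    have h1 : (A.C 1).C.e X (em W L a) = em W L a := by
      apply ((A.C 1).C.e X).injective
      rw [← A.mul, one_mul]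
    rw [map_smul, cop_em, h1, psi_em]

lemma cop_injective (τ : L →ₐ[W.K] ℂ) (g : Γ) {x y : (baseW W ℂ).H X}
    (h : cop τ (A.C g) X x = cop τ (A.C g) X y) : x = y := by
  have h1 := congrArg (cop τ (A.C g⁻¹) X) h
  rwa [← cop_mulG, ← cop_mulG, inv_mul_cancel, cop_one, cop_one] at h1

lemma gnop_ne (τ : L →ₐ[W.K] ℂ) (g : Γ) {j : ℕ} {x : (baseW W ℂ).H X}
    (hx : x ∈ (baseW W ℂ).gr X (2 * j)) (h0 : x ≠ 0) : (gnop A τ g).g X x ≠ 0 := by
  rw [gnop_even A τ g hx]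
  refine smul_ne_zero (inv_ne_zero (pow_ne_zero _ (kap_ne A τ g))) fun h => h0 ?_
  apply cop_injective (A := A) τ g
  rw [h, map_zero]

/-- The twisted operator. -/
noncomputable def tw (A : GA Γ W L) (τ : L →ₐ[W.K] ℂ) (j : ℕ) (g : Γ) (x : (baseW W ℂ).H X) :
    (baseW W ℂ).H X := (kap W τ (A.C g).C.c ^ j)⁻¹ • cop τ (A.C g) X x

lemma tw_mul (τ : L →ₐ[W.K] ℂ) (j : ℕ) (g h : Γ) (x : (baseW W ℂ).H X) :
    tw A τ j (g * h) x = tw A τ j g (tw A τ j h x) := by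
  rw [tw, tw, tw, map_smul, smul_smul, cop_mulG, A.twist, map_mul, mul_pow, mul_inv]

lemma tw_one (τ : L →ₐ[W.K] ℂ) (j : ℕ) (x : (baseW W ℂ).H X) : tw A τ j 1 x = x := by
  have h1 : (A.C 1).C.c = 1 := by
    have h2 := A.twist 1 1
    rw [one_mul] at h2
    have h3 : (A.C 1).C.c * (A.C 1).C.c = (A.C 1).C.c * 1 := by rw [← h2, mul_one]
    exact mul_left_cancel₀ (A.C 1).C.ne h3
  rw [tw, cop_one, h1, map_one, one_pow, inv_one, one_smul]

lemma tw_iff (τ : L →ₐ[W.K] ℂ) (j : ℕ) (g : Γ) (x y : (baseW W ℂ).H X) :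
    tw A τ j g x = y ↔ cop τ (A.C g) X x = kap W τ (A.C g).C.c ^ j • y := by
  rw [tw, inv_smul_eq_iff₀ (pow_ne_zero _ (kap_ne A τ g))]

/-- The Tate classes with complex coefficients. -/
def CT (A : GA Γ W L) (τ : L →ₐ[W.K] ℂ) (X : 𝒱.Obj) (j : ℕ) :
    Submodule (baseW W ℂ).K ((baseW W ℂ).H X) where
  carrier := {x | ∃ Γ' : Subgroup Γ, Γ'.FiniteIndex ∧
    ∀ g ∈ Γ', cop τ (A.C g) X x = kap W τ (A.C g).C.c ^ j • x}
  zero_mem' := ⟨⊤, inferInstance, fun g _ => by rw [map_zero, smul_zero]⟩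
  add_mem' := by
    rintro a b ⟨Γ₁, h1, ha'⟩ ⟨Γ₂, h2, hb'⟩
    refine ⟨Γ₁ ⊓ Γ₂, inferInstance, fun g hg => ?_⟩
    rw [map_add, ha' g hg.1, hb' g hg.2, smul_add]
  smul_mem' := by
    rintro r a ⟨Γ₁, h1, ha'⟩
    refine ⟨Γ₁, h1, fun g hg => ?_⟩
    rw [map_smul, ha' g hg, smul_comm]

/-- A class with a finite orbit is a Tate class. -/
lemma mem_CT_of_finite (τ : L →ₐ[W.K] ℂ) {j : ℕ} {x : (baseW W ℂ).H X} {Γ₀ : Subgroup Γ}
    (h0 : Γ₀.FiniteIndex) (h : (Set.range fun g : Γ₀ => tw A τ j (g : Γ) x).Finite) :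
    x ∈ CT A τ X j := by
  classical
  let act : MulAction Γ₀ ((baseW W ℂ).H X) :=
    { smul := fun g x => tw A τ j (g : Γ) x
      one_smul := fun x => tw_one τ j x
      mul_smul := fun g h x => tw_mul τ j (g : Γ) (h : Γ) x }
  have h1 : (MulAction.orbit Γ₀ x).Finite := h
  have h2 : (MulAction.stabilizer Γ₀ x).index = (MulAction.orbit Γ₀ x).ncard :=
    MulAction.index_stabilizer Γ₀ x
  have h3 : (MulAction.stabilizer Γ₀ x).index ≠ 0 := by
    rw [h2]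
    exact Set.ncard_ne_zero_of_mem (MulAction.mem_orbit_self x) h1
  refine ⟨(MulAction.stabilizer Γ₀ x).map Γ₀.subtype, ⟨?_⟩, ?_⟩
  · rw [Subgroup.index_map_subtype]
    exact mul_ne_zero h3 h0.index_ne_zero
  · rintro _ ⟨g, hg, rfl⟩
    have h4 : tw A τ j (g : Γ) x = x := hg
    exact (tw_iff τ j (g : Γ) x x).1 h4

end One

end Pool.Agent.E8helper24.QF
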