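import Pool.Agent.E8helper24.QF.SOp

/-!
# A subgroup of finite index which fixes all Tate classes on the powers of a variety
-/

open CategoryTheory AlgebraicGeometry

universe u

namespace Pool.Agent.E8helper24.QF

open Module
open Pool.Agent.H914 Pool.Agent.H914.VarClass Pool.Agent.H914.VarClass.Obj
  Pool.Agent.H914.WeilCohomology
open Pool.Agent.Y133.Half Pool.Agent.Y121.AH

/-- Functions in a finitely generated algebra which vanish on some subgroup of finite index vanish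
on a fixed subgroup of finite index. -/
lemma exists_uniform {K : Type*} [Field K] {Γ : Type*} [Group Γ] {P : Subalgebra K (Γ → K)}
    (hP : P.FG) : ∃ Γ₀ : Subgroup Γ, Γ₀.FiniteIndex ∧ ∀ Γ' : Subgroup Γ, Γ'.FiniteIndex →
      ∀ f ∈ P, (∀ g ∈ Γ', f g = 0) → ∀ g ∈ Γ₀, f g = 0 := by
  classical
  have h1 : Algebra.FiniteType K P := (Subalgebra.fg_iff_finiteType P).1 hP
  have h2 : IsNoetherianRing P := Algebra.FiniteType.isNoetherianRing K P
  let I : Subgroup Γ → Ideal P := fun Γ' =>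
    { carrier := {f | ∀ g ∈ Γ', (f : Γ → K) g = 0}
      add_mem' := fun {a b} ha hb g hg => by
        change (a : Γ → K) g + (b : Γ → K) g = 0
        rw [ha g hg, hb g hg, add_zero]
      zero_mem' := fun g _ => rfl
      smul_mem' := fun c a ha g hg => by
        change (c : Γ → K) g * (a : Γ → K) g = 0
        rw [ha g hg, mul_zero] }
  have hI : ∀ Γ' (f : P), f ∈ I Γ' ↔ ∀ g ∈ Γ', (f : Γ → K) g = 0 := fun _ _ => Iff.rfl
  obtain ⟨M, ⟨Γ₀, h0, rfl⟩, hM⟩ := set_has_maximal_iff_noetherian.2 h2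
    {J : Ideal P | ∃ Γ' : Subgroup Γ, Γ'.FiniteIndex ∧ I Γ' = J} ⟨I ⊤, ⊤, inferInstance, rfl⟩
  refine ⟨Γ₀, h0, fun Γ' hΓ' f hf hfg => ?_⟩
  have h3 : I Γ₀ ≤ I (Γ₀ ⊓ Γ') := fun f hf g hg => hf g hg.1
  have h4 : (Γ₀ ⊓ Γ').FiniteIndex := inferInstance
  have h5 : I Γ₀ = I (Γ₀ ⊓ Γ') := by
    by_contra hne
    exact hM _ ⟨_, h4, rfl⟩ (lt_of_le_of_ne h3 hne)
  have h6 : (⟨f, hf⟩ : P) ∈ I (Γ₀ ⊓ Γ') := fun g hg => hfg g hg.2
  rw [← h5] at h6
  exact h6

variable {k : Type u} [Field k] {𝒱 : VarClass k} {ops : CycleOps 𝒱}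
  {V : WeilCohomology.{u, 0} ops} {X Y Z : 𝒱.Obj}

/-- A multiplicative and natural family of operators with a character. -/
structure Fam (Γ : Type*) (V : WeilCohomology.{u, 0} ops) where
  /-- the operators -/
  e : Γ → ∀ X : 𝒱.Obj, V.H X →ₗ[V.K] V.H X
  /-- the character -/
  c : Γ → V.K
  mul : ∀ g X x y, e g X (x * y) = e g X x * e g X y
  map : ∀ g {X Y : 𝒱.Obj} (f : X ⟶ Y) (y : V.H Y), e g X (V.map f y) = V.map f (e g Y y)

variable {Γ : Type*} (A : Fam Γ V)

/-- The matrix coefficients on `X` lie in `P`. -/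
def MC (P : Subalgebra V.K (Γ → V.K)) (X : 𝒱.Obj) : Prop :=
  ∀ (x : V.H X) (φ : V.H X →ₗ[V.K] V.K), (fun g => φ (A.e g X x)) ∈ P

variable {A}

lemma MC.prod {P : Subalgebra V.K (Γ → V.K)} (hX : MC A P X) (hY : MC A P Y) :
    MC A P (X.prod Y) := by
  intro x
  refine xp_induction (p := fun x => ∀ φ : V.H (X.prod Y) →ₗ[V.K] V.K,
    (fun g => φ (A.e g (X.prod Y) x)) ∈ P) ?_ ?_ x
  · intro a b ha hb φ
    have h1 := P.add_mem (ha φ) (hb φ)
    refine (congrArg (· ∈ P) ?_).mp h1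
    funext g
    change φ (A.e g (X.prod Y) a) + φ (A.e g (X.prod Y) b) = _
    rw [map_add, map_add]
  · intro _ _ a _ b _ φ
    let u := Module.finBasis V.K (V.H X)
    let v := Module.finBasis V.K (V.H Y)
    have h1 : (fun g => φ (A.e g (X.prod Y) (xp V a b))) =
        ∑ i, ∑ j, φ (xp V (u i) (v j)) • ((fun g => u.coord i (A.e g X a)) *
          fun g => v.coord j (A.e g Y b)) := by
      funext g
      have e1 : A.e g (X.prod Y) (xp V a b) = xp V (A.e g X a) (A.e g Y b) := by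
        rw [xp, A.mul, A.map, A.map, xp]
      have e2 : A.e g X a = ∑ i, u.coord i (A.e g X a) • u i := (u.sum_repr _).symm
      have e3 : A.e g Y b = ∑ j, v.coord j (A.e g Y b) • v j := (v.sum_repr _).symm
      rw [e1]
      conv_lhs => rw [e2, e3]
      simp only [xp, map_sum, Finset.sum_mul, Finset.mul_sum, map_smul, smul_mul_smul_comm,
        Finset.sum_apply, Pi.smul_apply, Pi.mul_apply, smul_eq_mul]
      rw [Finset.sum_comm]
      refine Finset.sum_congr rfl fun i _ => Finset.sum_congr rfl fun j _ => ?_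
      ring
    rw [h1]
    exact P.sum_mem fun i _ => P.sum_mem fun j _ =>
      P.smul_mem (P.mul_mem (hX a _) (hY b _)) _

lemma MC.pw {P : Subalgebra V.K (Γ → V.K)} (hX : MC A P X) : ∀ n, MC A P (pw X n)
  | 0 => hX
  | n + 1 => (MC.pw hX n).prod hX

/-- There is a finitely generated algebra with the matrix coefficients. -/
lemma exists_alg (A : Fam Γ V) (X : 𝒱.Obj) :
    ∃ P : Subalgebra V.K (Γ → V.K), P.FG ∧ A.c ∈ P ∧ MC A P X := by
  classical
  let u := Module.finBasis V.K (V.H X)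
  let s : Set (Γ → V.K) := insert A.c
    (Set.range fun p : Fin (finrank V.K (V.H X)) × Fin (finrank V.K (V.H X)) =>
      fun g => u.coord p.1 (A.e g X (u p.2)))
  have hs : s.Finite := (Set.finite_range _).insert _
  refine ⟨Algebra.adjoin V.K s, Subalgebra.fg_def.2 ⟨s, hs, rfl⟩,
    Algebra.subset_adjoin (Set.mem_insert _ _), fun x φ => ?_⟩
  have h1 : (fun g => φ (A.e g X x)) = ∑ i, ∑ j, (φ (u i) * u.coord j x) •
      fun g => u.coord i (A.e g X (u j)) := by
    funext g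
    have e1 : x = ∑ j, u.coord j x • u j := (u.sum_repr _).symm
    have e2 : ∀ j, A.e g X (u j) = ∑ i, u.coord i (A.e g X (u j)) • u i :=
      fun j => (u.sum_repr _).symm
    conv_lhs => rw [e1]
    rw [map_sum, map_sum]
    have e3 : ∀ j, φ (A.e g X (u.coord j x • u j)) =
        ∑ i, (φ (u i) * u.coord j x) * u.coord i (A.e g X (u j)) := by
      intro j
      rw [map_smul]
      conv_lhs => rw [e2 j]
      rw [map_smul, map_sum, Finset.smul_sum]
      refine Finset.sum_congr rfl fun i _ => ?_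
      rw [map_smul, smul_eq_mul, smul_eq_mul]
      ring
    rw [Finset.sum_congr rfl fun j _ => e3 j, Finset.sum_comm]
    simp only [Finset.sum_apply, Pi.smul_apply, smul_eq_mul]
  rw [h1]
  refine Subalgebra.sum_mem _ fun i _ => Subalgebra.sum_mem _ fun j _ =>
    Subalgebra.smul_mem _ ?_ _
  have h2 : (fun g => u.coord i (A.e g X (u j))) ∈ s := Set.mem_insert_of_mem _ ⟨(i, j), rfl⟩
  exact Algebra.subset_adjoin h2

/-- **The uniform subgroup.** -/
theorem exists_subgroup [Group Γ] (A : Fam Γ V) (X : 𝒱.Obj) :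
    ∃ Γ₀ : Subgroup Γ, Γ₀.FiniteIndex ∧ ∀ Γ' : Subgroup Γ, Γ'.FiniteIndex →
      ∀ (n j : ℕ) (x : V.H (pw X n)), (∀ g ∈ Γ', A.e g (pw X n) x = A.c g ^ j • x) →
        ∀ g ∈ Γ₀, A.e g (pw X n) x = A.c g ^ j • x := by
  obtain ⟨P, hP, hc, hX⟩ := exists_alg A X
  obtain ⟨Γ₀, h0, h⟩ := exists_uniform hP
  refine ⟨Γ₀, h0, fun Γ' hΓ' n j x hx g hg => ?_⟩
  rw [← sub_eq_zero, ← Module.forall_dual_apply_eq_zero_iff V.K]
  intro φ
  have h1 : (fun g => φ (A.e g (pw X n) x)) - φ x • A.c ^ j ∈ P :=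
    P.sub_mem (MC.pw hX n x φ) (P.smul_mem (P.pow_mem hc j) _)
  have h2 := h Γ' hΓ' _ h1 (fun g hg => by
    change φ (A.e g (pw X n) x) - φ x * A.c g ^ j = 0
    rw [hx g hg, map_smul, smul_eq_mul, mul_comm, sub_self]) g hg
  change φ (A.e g (pw X n) x) - φ x * A.c g ^ j = 0 at h2
  rw [map_sub, map_smul, smul_eq_mul, mul_comm (A.c g ^ j)]
  exact h2

end Pool.Agent.E8helper24.QF
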