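import Pool.Agent.E8helper24.QF.Nop
import Pool.Agent.E8helper24.QF.Unif
import Pool.Agent.Y133.Half.PairBase

/-!
# The systems of the Tate classes and of the common Tate classes
-/

open CategoryTheory AlgebraicGeometry TensorProduct

universe u

namespace Pool.Agent.E8helper24.QF

open Module
open Pool.Agent.H914 Pool.Agent.H914.VarClass Pool.Agent.H914.VarClass.Obj
  Pool.Agent.H914.WeilCohomology
open Pool.Agent.Y133.Half Pool.Agent.Y121.AH

variable {k : Type u} [Field k] {𝒱 : VarClass k} {ops : CycleOps 𝒱}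

/-- An action of a group. -/
structure GA (Γ : Type) [Group Γ] (W : WeilCohomology.{u, 0} ops) (L : Type) [Field L]
    [Algebra W.K L] where
  /-- the action -/
  C : Γ → LinC W L
  mul : ∀ g h (X : 𝒱.Obj) x, (C (g * h)).C.e X x = (C g).C.e X ((C h).C.e X x)
  twist : ∀ g h, (C (g * h)).C.c = (C g).C.c * (C h).C.c

variable {Γ : Type} [Group Γ] {W : WeilCohomology.{u, 0} ops} {L : Type} [Field L]
  [Algebra W.K L] (A : GA Γ W L) {X Y Z P : 𝒱.Obj}

/-- The Tate classes. -/
def Tt (X : 𝒱.Obj) (j : ℕ) (x : (baseW W L).H X) : Prop :=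
  x ∈ (baseW W L).gr X (2 * j) ∧ ∃ Γ' : Subgroup Γ, Γ'.FiniteIndex ∧
    ∀ g ∈ Γ', (A.C g).C.e X x = (A.C g).C.c ^ j • x

/-- The Tate classes. -/
def tatePred : ClassPred (baseW W L) where
  P X j x := Tt A X j x
  gr h := h.1
  zero := ⟨Submodule.zero_mem _, ⊤, inferInstance, fun g _ => by rw [map_zero, smul_zero]⟩
  add := by
    rintro X j a b ⟨ha, Γ₁, h1, ha'⟩ ⟨hb, Γ₂, h2, hb'⟩
    refine ⟨Submodule.add_mem _ ha hb, Γ₁ ⊓ Γ₂, inferInstance, fun g hg => ?_⟩
    rw [map_add, ha' g hg.1, hb' g hg.2, smul_add]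
  smul := by
    rintro X j r a ⟨ha, Γ₁, h1, ha'⟩
    refine ⟨Submodule.smul_mem _ _ ha, Γ₁, h1, fun g hg => ?_⟩
    rw [(A.C g).semi, ha' g hg, smul_comm]
  cl {X j z} hz := ⟨(baseW W L).cl_mem hz, ⊤, inferInstance, fun g _ => (A.C g).C.cyc hz⟩
  mul := by
    rintro X i j a b ⟨ha, Γ₁, h1, ha'⟩ ⟨hb, Γ₂, h2, hb'⟩
    refine ⟨by rw [mul_add]; exact (baseW W L).mul_mem ha hb, Γ₁ ⊓ Γ₂, inferInstance,
      fun g hg => ?_⟩
    rw [map_mul, ha' g hg.1, hb' g hg.2, smul_mul_smul_comm, pow_add]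
  map := by
    rintro X Y f j a ⟨ha, Γ₁, h1, ha'⟩
    refine ⟨(baseW W L).map_mem f ha, Γ₁, h1, fun g hg => ?_⟩
    rw [(A.C g).C.nat, ha' g hg, map_smul]
  push := by
    rintro X Y f j l h a ⟨ha, Γ₁, h1, ha'⟩
    refine ⟨push_gr f h ha, Γ₁, h1, fun g hg => ?_⟩
    have h2 := (A.C g).C.push f a
    have hc : (A.C g).C.c ^ X.dim ≠ 0 := pow_ne_zero _ (A.C g).C.ne
    rw [ha' g hg, map_smul, smul_smul, ← pow_add] at h2
    apply smul_right_injective _ hc
    change (A.C g).C.c ^ X.dim • (A.C g).C.e Y ((baseW W L).push f a) =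
      (A.C g).C.c ^ X.dim • (A.C g).C.c ^ l • (baseW W L).push f a
    rw [h2, smul_smul, ← pow_add]
    congr 2
    omega

variable {ι : Type} {L : ι → Type} [∀ i, Field (L i)] [∀ i, Algebra W.K (L i)]
  (A : ∀ i, GA Γ W (L i))

/-- The common Tate classes. -/
def Cm (X : 𝒱.Obj) (j : ℕ) (x : W.H X) : Prop := ∀ i, Tt (A i) X j (em W (L i) x)

/-- The common Tate classes. -/
def commonPred (i₀ : ι) : ClassPred W where
  P X j x := Cm A X j x
  gr h := mem_of_em_mem (h i₀).1
  zero i := by rw [em_zero]; exact (tatePred (A i)).zero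
  add ha hb i := by rw [em_add]; exact (tatePred (A i)).add (ha i) (hb i)
  smul r _ ha i := by rw [em_smul]; exact (tatePred (A i)).smul _ (ha i)
  cl hz i := (tatePred (A i)).cl hz
  mul ha hb i := by rw [em_mul]; exact (tatePred (A i)).mul (ha i) (hb i)
  map f _ _ ha i := by rw [← em_map]; exact (tatePred (A i)).map f (ha i)
  push f _ _ h _ ha i := by rw [← em_push]; exact (tatePred (A i)).push f h (ha i)

variable {A}

/-- Extended common Tate classes are Tate classes. -/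
lemma base_le (i₀ i : ι) (Z : 𝒱.Obj) :
    ((commonPred A i₀).sys.base (L i)).C Z ≤ (tatePred (A i)).sys.C Z := by
  intro x hx
  have hx' : x ∈ ((commonPred A i₀).sp Z).baseChange (L i) := hx
  refine base_induction (P := fun x : (L i) ⊗[W.K] W.H Z => (show (baseW W (L i)).H Z from x) ∈
    (tatePred (A i)).sp Z) ?_ ?_ ?_ hx'
  · exact Submodule.zero_mem _
  · intro x y hx hy; exact Submodule.add_mem _ hx hy
  · intro l a ha
    have h : (show (baseW W (L i)).H Z from (l ⊗ₜ[W.K] a)) ∈ (tatePred (A i)).sp Z := by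
      rw [tmul_eq]
      refine Submodule.smul_mem _ _ ?_
      refine ClassPred.sp_ind (Q := commonPred A i₀)
        (q := fun a => em W (L i) a ∈ (tatePred (A i)).sp Z) ?_ ?_ ?_ ha
      · intro j a ha; exact ClassPred.sp_of (Q := tatePred (A i)) (ha i)
      · rw [em_zero]; exact Submodule.zero_mem _
      · intro a b ha hb; rw [em_add]; exact Submodule.add_mem _ ha hb
    exact h

end Pool.Agent.E8helper24.QF
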