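import Pool.Agent.Y121.AH.ZeroOne

/-!
# Operators on the cohomology and the finite orbit lemma
-/

open CategoryTheory AlgebraicGeometry TensorProduct Filter Topology

universe u

namespace Pool.Agent.E8helper24.QF

open Module
open Pool.Agent.H914 Pool.Agent.H914.VarClass Pool.Agent.H914.VarClass.Obj
  Pool.Agent.H914.WeilCohomology
open Pool.Agent.Y133.Half Pool.Agent.Y121.AH

variable {k : Type u} [Field k] {𝒱 : VarClass k} {ops : CycleOps 𝒱}
  {W V : WeilCohomology.{u, 0} ops} {X Y Z P : 𝒱.Obj}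

/-- An operator which is compatible with products, pull-backs and push-forwards. -/
structure SOp (V : WeilCohomology.{u, 0} ops) where
  /-- the operator -/
  g : ∀ X : 𝒱.Obj, V.H X →ₗ[V.K] V.H X
  mul : ∀ (X : 𝒱.Obj) (x y : V.H X), g X (x * y) = g X x * g X y
  map : ∀ {X Y : 𝒱.Obj} (f : X ⟶ Y) (y : V.H Y), g X (V.map f y) = V.map f (g Y y)
  push : ∀ {X Y : 𝒱.Obj} (f : X ⟶ Y) (x : V.H X), g Y (V.push f x) = V.push f (g X x)
  gr : ∀ {X : 𝒱.Obj} {i : ℕ} {x : V.H X}, x ∈ V.gr X i → g X x ∈ V.gr X i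

/-- The realisation of the operators of the system. -/
lemma op_comm (R : Rlz W V) {S : Sys W} {f : W.H P →ₗ[W.K] W.H Z} (hf : f ∈ S.Op P Z) :
    ∃ F : V.H P →ₗ[V.K] V.H Z, (∀ x, F (R.E P x) = R.E Z (f x)) ∧
      ∀ g : SOp V, (∀ x ∈ S.C (P.prod Z), g.g _ (R.E _ x) = R.E _ x) →
        ∀ y, g.g Z (F y) = F (g.g P y) := by
  obtain ⟨c, hc, rfl⟩ := Sys.mem_Op.1 hf
  have hne : R.c ^ P.dim ≠ 0 := pow_ne_zero _ R.ne
  have hne' : R.c ^ Z.dim ≠ 0 := pow_ne_zero _ R.ne
  refine ⟨(R.c ^ P.dim)⁻¹ • V.corr (R.E _ c), fun x => ?_, fun g hg y => ?_⟩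
  · rw [LinearMap.smul_apply, corr_apply, corr_apply]
    have h := R.push (snd P Z) (c * W.map (fst P Z) x)
    rw [dim_prod, map_mul (R.E (P.prod Z)), R.nat] at h
    have h2 : R.c ^ Z.dim • (R.c ^ P.dim • R.E Z (W.push (snd P Z) (c * W.map (fst P Z) x))) =
        R.c ^ Z.dim • (V.push (snd P Z) (R.E _ c * V.map (fst P Z) (R.E P x))) := by
      rw [← h, smul_smul, ← pow_add, Nat.add_comm Z.dim]
    have h3 := smul_right_injective _ hne' h2
    beta_reduce at h3
    rw [← h3, smul_smul, inv_mul_cancel₀ hne, one_smul]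
  · rw [LinearMap.smul_apply, LinearMap.smul_apply, corr_apply, corr_apply, map_smul, g.push,
      g.mul, g.map, hg c hc]

/-- Linear relations between operators on `P` are inherited by the generated classes. -/
lemma gen_rel (R : Rlz W V) {S : Sys W} {r : ℕ} (g : Fin r → SOp V)
    (hg : ∀ a, ∀ x ∈ S.C (P.prod Z), (g a).g _ (R.E _ x) = R.E _ x) {c : Fin r → V.K}
    (hc : ∑ a, c a • (g a).g P = 0) {M : Submodule W.K (W.H P)} {x : W.H Z}
    (hx : x ∈ gen S P Z M) : ∑ a, c a • (g a).g Z (R.E Z x) = 0 := by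
  induction hx using Submodule.span_induction with
  | mem x hx =>
    obtain ⟨f, hf, t, ht, rfl⟩ := hx
    obtain ⟨F, h1, h2⟩ := op_comm R hf
    have h3 : ∀ a, c a • (g a).g Z (R.E Z (f t)) = F (c a • (g a).g P (R.E P t)) := by
      intro a
      rw [← h1, h2 (g a) (hg a), map_smul]
    rw [Finset.sum_congr rfl fun a _ => h3 a, ← map_sum]
    have h4 := congrArg (fun f : V.H P →ₗ[V.K] V.H P => f (R.E P t)) hc
    simp only [LinearMap.sum_apply, LinearMap.smul_apply, LinearMap.zero_apply] at h4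
    rw [h4, map_zero]
  | zero => simp
  | add x y _ _ hx hy =>
    simp only [map_add, smul_add, Finset.sum_add_distrib, hx, hy, add_zero]
  | smul s x _ hx =>
    have h3 : ∀ a, c a • (g a).g Z (R.E Z (s • x)) = R.s s • (c a • (g a).g Z (R.E Z x)) := by
      intro a
      rw [R.semi, map_smul, smul_comm]
    rw [Finset.sum_congr rfl fun a _ => h3 a, ← Finset.smul_sum, hx, smul_zero]

lemma SOp.xp (g : SOp V) (a : V.H X) (b : V.H Y) :
    g.g (X.prod Y) (xp V a b) = xp V (g.g X a) (g.g Y b) := by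
  rw [Pool.Agent.Y133.Half.xp, g.mul, g.map, g.map, Pool.Agent.Y133.Half.xp]

lemma SOp.xpw (g : SOp V) (u : V.H Z) : ∀ m, g.g (pw Z m) (xpw V u m) = xpw V (g.g Z u) m
  | 0 => rfl
  | m + 1 => by
    have h := g.xp (Pool.Agent.Y121.AH.xpw V u m) u
    rw [g.xpw u m] at h
    exact h

lemma E_xp (R : Rlz W V) (a : W.H X) (b : W.H Y) :
    R.E (X.prod Y) (xp W a b) = xp V (R.E X a) (R.E Y b) := by
  rw [xp, map_mul, R.nat, R.nat, xp]

lemma E_xpw (R : Rlz W V) (v : W.H Z) : ∀ m, R.E (pw Z m) (xpw W v m) = xpw V (R.E Z v) m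
  | 0 => rfl
  | m + 1 => by
    have h := E_xp R (xpw W v m) v
    rw [E_xpw R v m] at h
    exact h

/-- The external powers of distinct nonzero classes are linearly independent. -/
lemma eq_zero_of_xpw [Infinite V.K] {j : ℕ} {r : ℕ} {w : Fin r → V.H Z}
    (hw : ∀ a, w a ∈ V.gr Z (2 * j)) (hinj : Function.Injective w) (h0 : ∀ a, w a ≠ 0)
    {c : Fin r → V.K} (hc : ∀ m, ∑ a, c a • xpw V (w a) m = 0) (a : Fin r) : c a = 0 := by
  classical
  -- a class in the complementary degree which separates the classes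
  have key : ∀ z : V.H Z, z ∈ V.gr Z (2 * j) → z ≠ 0 →
      ∃ y ∈ V.gr Z (2 * (Z.dim - j)), V.tr Z (z * y) ≠ 0 := by
    intro z hz hz0
    by_contra hcon
    push Not at hcon
    apply hz0
    apply V.nondeg
    intro b
    refine gr_induction (V.isInternal Z) (p := fun b => V.tr Z (z * b) = 0) ?_ ?_ b
    · intro i b hb
      by_cases hi : i = 2 * (Z.dim - j)
      · subst hi; exact hcon b hb
      · by_cases hj : j ≤ Z.dim
        · exact V.tr_eq_zero (V.mul_mem hz hb) (by omega)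
        · rw [V.gr_eq_bot Z _ (by omega : 2 * Z.dim < 2 * j)] at hz
          rw [(Submodule.mem_bot _).1 hz, zero_mul, map_zero]
    · intro a b ha hb; rw [mul_add, map_add, ha, hb, add_zero]
  let ι := Fin r ⊕ {p : Fin r × Fin r // p.1 ≠ p.2}
  let z : ι → V.H Z := Sum.elim w fun p => w p.1.1 - w p.1.2
  have hz : ∀ i, z i ∈ V.gr Z (2 * j) := by
    rintro (a | p)
    · exact hw a
    · exact Submodule.sub_mem _ (hw _) (hw _)
  have hz0 : ∀ i, z i ≠ 0 := by
    rintro (a | p)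
    · exact h0 a
    · exact sub_ne_zero.2 fun h => p.2 (hinj h)
  obtain ⟨y, hy, hyz⟩ := Module.Dual.exists_forall_mem_ne_zero_of_forall_exists
    (V.gr Z (2 * (Z.dim - j)))
    (fun i => V.tr Z ∘ₗ LinearMap.mulLeft V.K (z i)) fun i => key _ (hz i) (hz0 i)
  set α : Fin r → V.K := fun a => V.tr Z (w a * y) with hα
  have hα0 : ∀ a, α a ≠ 0 := fun a => hyz (Sum.inl a)
  have hαi : Function.Injective α := by
    intro a b hab
    by_contra hne
    apply hyz (Sum.inr ⟨(a, b), hne⟩)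
    change V.tr Z ((w a - w b) * y) = 0
    rw [sub_mul, map_sub]
    exact sub_eq_zero.2 hab
  have hwe : ∀ a, w a ∈ PH V Z 0 := fun a => PH.of' (by omega) (hw a)
  have hye : y ∈ PH V Z 0 := PH.of' (by omega) hy
  have h1 : ∀ m : ℕ, ∑ a, c a * α a ^ (m + 1) = 0 := by
    intro m
    have h2 := congrArg (fun x => V.tr (pw Z m) (x * xpw V y m)) (hc m)
    simp only [zero_mul, map_zero, Finset.sum_mul, map_sum, smul_mul_assoc, map_smul,
      smul_eq_mul] at h2
    rw [← h2]
    refine Finset.sum_congr rfl fun a _ => ?_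
    rw [tr_xpw (hwe a) hye]
  have h2 : (fun a => c a * α a) = 0 := by
    apply Matrix.eq_zero_of_forall_pow_sum_mul_pow_eq_zero hαi
    intro i
    have h3 := h1 i
    rw [← h3]
    refine Finset.sum_congr rfl fun a _ => ?_
    rw [pow_succ]
    ring
  have h3 := congrFun h2 a
  exact (mul_eq_zero.1 h3).resolve_right (hα0 a)

/-- **The finite orbit lemma.** -/
theorem finite_orbit [Infinite V.K] (R : Rlz W V) {S T : Sys W} {G : Type*} (g : G → SOp V)
    {j : ℕ} {v : W.H Z} (hv : v ∈ W.gr Z (2 * j))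
    (hg : ∀ a m, ∀ x ∈ S.C (P.prod (pw Z m)), (g a).g _ (R.E _ x) = R.E _ x)
    (hgen : ∀ m, xpw W v m ∈ gen S P (pw Z m) (T.C P))
    (hne : ∀ a, R.E Z v ≠ 0 → (g a).g Z (R.E Z v) ≠ 0) :
    (Set.range fun a => (g a).g Z (R.E Z v)).Finite := by
  classical
  by_cases hv0 : R.E Z v = 0
  · refine (Set.finite_singleton (0 : V.H Z)).subset ?_
    rintro _ ⟨a, rfl⟩
    simp [hv0]
  by_contra hinf
  have hinf' : (Set.range fun a => (g a).g Z (R.E Z v)).Infinite := hinf
  let n : ℕ := finrank V.K (V.H P →ₗ[V.K] V.H P)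
  obtain ⟨e⟩ : Nonempty (Fin (n + 1) ↪ (Set.range fun a => (g a).g Z (R.E Z v))) := by
    have : Infinite (Set.range fun a => (g a).g Z (R.E Z v)) := hinf'.to_subtype
    exact ⟨(Fin.valEmbedding).trans (Infinite.natEmbedding _)⟩
  have h1 : ∀ i, ∃ a, (g a).g Z (R.E Z v) = (e i : V.H Z) := fun i => (e i).2
  choose a ha using h1
  have hdep : ¬ LinearIndependent V.K fun i : Fin (n + 1) => (g (a i)).g P := by
    intro hli
    have h2 := hli.fintype_card_le_finrank
    rw [Fintype.card_fin] at h2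
    omega
  rw [Fintype.linearIndependent_iff] at hdep
  push Not at hdep
  obtain ⟨c, hc, i, hi⟩ := hdep
  apply hi
  refine eq_zero_of_xpw (V := V) (Z := Z) (j := j) (w := fun i => (g (a i)).g Z (R.E Z v))
    (fun i => (g (a i)).gr (R.gr hv)) ?_ (fun i => hne _ hv0) ?_ i
  · intro i i' hii
    beta_reduce at hii
    rw [ha, ha] at hii
    exact e.injective (Subtype.ext hii)
  · intro m
    have h2 := gen_rel R (fun i => g (a i)) (fun i => hg (a i) m) hc (hgen m)
    rw [← h2]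
    refine Finset.sum_congr rfl fun i _ => ?_
    rw [E_xpw, (g (a i)).xpw]

end Pool.Agent.E8helper24.QF
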